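import Pool.Agent.TH334.WQ.Defs
import Pool.Agent.W938.Rnd.Flow

/-!
# Circuits with product questions are query algorithms with product reads
-/

set_option autoImplicit false
set_option linter.unusedSectionVars false

namespace Pool.Agent.TH334.WQ

open Finset Matrix Pool.Agent.NPC Pool.Agent.H620R2.Gauge
open Pool.Agent.W938.QX (mix)
open Pool.Agent.W938.Hyb (circAct_append circAct_lin nsq_circAct)
open Pool.Agent.TH334.NR (Alg sg mon)
open Pool.Agent.TH334.PR (KRs SFac)
open Pool.Agent.H572R2 (flp flp_ne)

variable {m N : ℕ}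

lemma mix_even {A B : Oracle} {z : List Bool} (h : z.length % 2 = 0) : mix A B z = A z := by
  unfold Pool.Agent.W938.QX.mix
  rw [if_pos h]

lemma mix_odd {A B : Oracle} {z : List Bool} (h : ¬ z.length % 2 = 0) : mix A B z = B z := by
  unfold Pool.Agent.W938.QX.mix
  rw [if_neg h]

/-! ### Matrices -/

/-- The matrix of a list of gates. -/
noncomputable def Mt (O : Oracle) (l : List Gate) : Matrix (Fin m → Bool) (Fin m → Bool) ℂ :=
  fun s' s => ((circAct O l (fun r => if r = s then (1 : ℝ) else 0) s' : ℝ) : ℂ)

lemma delta_sum (ψ : (Fin m → Bool) → ℝ) :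
    (fun r => ∑ s, ψ s * (if r = s then (1 : ℝ) else 0)) = ψ := by
  funext r
  simp

lemma Mt_mulVec (O : Oracle) (l : List Gate) (ψ : (Fin m → Bool) → ℝ) (s' : Fin m → Bool) :
    ∑ s, Mt O l s' s * ((ψ s : ℝ) : ℂ) = ((circAct O l ψ s' : ℝ) : ℂ) := by
  have h := circAct_lin O (Finset.univ : Finset (Fin m → Bool)) ψ l
    (fun s r => if r = s then (1 : ℝ) else 0) s'
  rw [delta_sum] at h
  rw [h]
  push_cast
  refine Finset.sum_congr rfl fun s _ => ?_
  unfold Mt
  ring

lemma ip_circ (O : Oracle) (l : List Gate) (ψ φ : (Fin m → Bool) → ℝ) :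
    ∑ s, circAct O l ψ s * circAct O l φ s = ∑ s, ψ s * φ s := by
  have h0 := nsq_circAct O l (fun s => ψ s + φ s)
  have h1 := nsq_circAct O l ψ
  have h2 := nsq_circAct O l φ
  rw [Pool.Agent.W938.Rnd.circ_add] at h0
  unfold Pool.Agent.H703R2.AA.nsq at h0 h1 h2
  have e : ∀ f g : (Fin m → Bool) → ℝ, ∑ s, (f s + g s) ^ 2
      = ∑ s, f s ^ 2 + 2 * ∑ s, f s * g s + ∑ s, g s ^ 2 := by
    intro f g
    rw [Finset.mul_sum, ← Finset.sum_add_distrib, ← Finset.sum_add_distrib]
    exact Finset.sum_congr rfl fun s _ => by ring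
  rw [e, e] at h0
  linarith

lemma Mt_unit (O : Oracle) (l : List Gate) : (Mt O l (m := m))ᴴ * Mt O l = 1 := by
  ext s s'
  rw [Matrix.mul_apply]
  have h := ip_circ O l (fun r => if r = s then (1 : ℝ) else 0) (fun r => if r = s' then (1 : ℝ) else 0)
  have h2 : ∑ r : Fin m → Bool, (if r = s then (1 : ℝ) else 0) * (if r = s' then (1 : ℝ) else 0)
      = if s = s' then 1 else 0 := by
    simp [eq_comm]
  rw [h2] at h
  rw [Matrix.one_apply]
  have h3 : ((∑ r, circAct O l (fun r => if r = s then (1 : ℝ) else 0) r
      * circAct O l (fun r => if r = s' then (1 : ℝ) else 0) r : ℝ) : ℂ)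
      = if s = s' then 1 else 0 := by
    rw [h]
    split_ifs <;> simp
  rw [← h3]
  push_cast
  refine Finset.sum_congr rfl fun r _ => ?_
  rw [Matrix.conjTranspose_apply]
  unfold Mt
  simp

/-- The shift of the clock. -/
noncomputable def sh (n : ℕ) : Matrix (Fin (n + 1)) (Fin (n + 1)) ℂ :=
  fun r' r => if r' = r + 1 then 1 else 0

lemma sh_unit (n : ℕ) : (sh n)ᴴ * sh n = 1 := by
  ext r r'
  rw [Matrix.mul_apply, Matrix.one_apply]
  simp only [Matrix.conjTranspose_apply, sh]
  by_cases h : r = r'
  · subst h
    simp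
  · rw [if_neg h]
    refine Finset.sum_eq_zero fun a _ => ?_
    by_cases h1 : a = r + 1
    · have h2 : ¬ a = r' + 1 := by
        rintro rfl
        exact h (add_right_cancel h1).symm
      simp [h2]
    · simp [h1]

/-! ### Gates -/

/-- The question of a gate, if it is an oracle gate for strings of even length. -/
def qry (m : ℕ) : Gate → Option (List ℕ × ℕ)
  | Sum.inr (true, q, k) => if q.length % 2 = 0 ∧ k < m then some (q, k) else none
  | _ => none

/-- The gates before the phase. -/
def pre (m : ℕ) (g : Gate) : List Gate :=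
  match qry m g with
  | some (_, k) => [Sum.inl k]
  | none => []

/-- The gates after the phase. -/
def mid (m : ℕ) (g : Gate) : List Gate :=
  match qry m g with
  | some (_, k) => [Sum.inl k]
  | none => [g]

lemma qry_some {g : Gate} {q : List ℕ} {k : ℕ} (h : qry m g = some (q, k)) :
    g = Sum.inr (true, q, k) ∧ q.length % 2 = 0 ∧ k < m := by
  rcases g with i | ⟨u, q', k'⟩
  · simp [qry] at h
  · cases u with
    | false => simp [qry] at h
    | true =>
      simp only [qry] at h
      split_ifs at h with h1
      rw [Option.some.injEq, Prod.mk.injEq] at h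
      obtain ⟨rfl, rfl⟩ := h
      exact ⟨rfl, h1⟩

/-- The phase of a gate. -/
noncomputable def ph (m : ℕ) (A : Oracle) (g : Gate) (s : Fin m → Bool) : ℝ :=
  match qry m g with
  | some (q, k) => if rd s k = true ∧ A (q.map (rd (put s k false))) = true then -1 else 1
  | none => 1

lemma rd_put {k : ℕ} (hk : k < m) (s : Fin m → Bool) (v : Bool) : rd (put s k v) k = v := by
  unfold rd put
  rw [dif_pos hk, dif_pos hk, Function.update_self]

lemma put_put (k : ℕ) (s : Fin m → Bool) (v w : Bool) : put (put s k v) k w = put s k w := by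
  unfold put
  split_ifs with h
  · rw [Function.update_idem]
  · rfl

lemma put_rd {k : ℕ} (s : Fin m → Bool) : put s k (rd s k) = s := by
  unfold put rd
  split_ifs with h
  · exact Function.update_eq_self _ _
  · rfl

lemma had {O : Oracle} {k : ℕ} (hk : k < m) (ψ : (Fin m → Bool) → ℝ) (s : Fin m → Bool) :
    gateAct O (Sum.inl k) ψ s
      = (ψ (put s k false) + (if rd s k = true then -1 else 1) * ψ (put s k true)) / Real.sqrt 2 := by
  simp only [gateAct, put, rd, dif_pos hk]

lemma mix_false (A B : Oracle) {z : List Bool} (h : z.length % 2 = 1) :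
    mix A B z = mix (fun _ => false) B z := by
  rw [mix_odd (by omega), mix_odd (by omega)]

lemma gate_eq (A B : Oracle) (g : Gate) (ψ : (Fin m → Bool) → ℝ) :
    circAct (mix (fun _ => false) B) (mid m g)
      (fun s => ph m A g s * circAct (mix (fun _ => false) B) (pre m g) ψ s)
      = gateAct (mix A B) g ψ := by
  set O₀ := mix (fun _ => false) B with hO
  cases hq : qry m g with
  | none =>
    have h1 : mid m g = [g] := by unfold mid; rw [hq]
    have h2 : pre m g = [] := by unfold pre; rw [hq]
    have h3 : (fun s => ph m A g s * circAct O₀ (pre m g) ψ s) = ψ := by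
      funext s
      rw [h2]
      unfold ph
      rw [hq]
      simp [circAct]
    rw [h3, h1]
    show gateAct O₀ g ψ = _
    rcases g with i | ⟨u, q, k⟩
    · rfl
    · cases u with
      | false => rfl
      | true =>
        simp only [qry] at hq
        funext s
        simp only [gateAct]
        by_cases hk : k < m
        · have hl : q.length % 2 = 1 := by
            by_contra hc
            rw [if_pos ⟨by omega, hk⟩] at hq
            exact absurd hq (by simp)
          unfold flipIf
          rw [dif_pos hk, dif_pos hk, hO]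
          beta_reduce
          rw [mix_false A B (by rw [List.length_map]; exact hl)]
        · unfold flipIf
          rw [dif_neg hk, dif_neg hk]
  | some qk =>
    obtain ⟨q, k⟩ := qk
    obtain ⟨rfl, hl, hk⟩ := qry_some hq
    have h1 : mid m (Sum.inr (true, q, k)) = [Sum.inl k] := by unfold mid; rw [hq]
    have h2 : pre m (Sum.inr (true, q, k)) = [Sum.inl k] := by unfold pre; rw [hq]
    rw [h1, h2]
    funext s
    show gateAct O₀ (Sum.inl k) (fun s => ph m A _ s * gateAct O₀ (Sum.inl k) ψ s) s = _
    rw [had hk]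
    simp only [had hk]
    have hph : ∀ v, ph m A (Sum.inr (true, q, k)) (put s k v)
        = if v = true ∧ A (q.map (rd (put s k false))) = true then -1 else 1 := by
      intro v
      unfold ph
      rw [hq]
      simp only [rd_put hk, put_put]
    rw [hph, hph]
    simp only [rd_put hk, put_put]
    have hs2 : Real.sqrt 2 * Real.sqrt 2 = 2 := Real.mul_self_sqrt (by norm_num)
    have hs0 : Real.sqrt 2 ≠ 0 := by
      intro h
      rw [h] at hs2
      norm_num at hs2
    have hg : gateAct (mix A B) (Sum.inr (true, q, k)) ψ s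
        = ψ (put s k (rd s k ^^ A (q.map (rd (put s k false))))) := by
      simp only [gateAct]
      unfold flipIf
      rw [dif_pos hk]
      beta_reduce
      rw [mix_even (by rw [List.length_map]; exact hl)]
      unfold put rd
      rw [dif_pos hk, dif_pos hk, dif_pos hk]
    rw [hg]
    set a0 := ψ (put s k false)
    set a1 := ψ (put s k true)
    cases hz : A (q.map (rd (put s k false))) <;> cases hr : rd s k
    · simp
      field_simp
      rw [Real.sq_sqrt (by norm_num)]
      ring
    · simp
      field_simp
      rw [Real.sq_sqrt (by norm_num)]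
      ring
    · simp
      field_simp
      rw [Real.sq_sqrt (by norm_num)]
      ring
    · simp
      field_simp
      rw [Real.sq_sqrt (by norm_num)]
      ring

lemma pre_local (A B : Oracle) (g : Gate) (ψ : (Fin m → Bool) → ℝ) :
    circAct (mix A B) (pre m g) ψ = circAct (mix (fun _ => false) B) (pre m g) ψ := by
  unfold pre
  split
  · rfl
  · rfl

/-- A real linear function of a sign. -/
lemma sfac_of (F : (Fin N → Bool) → ℂ) (j : Fin N) {a b : ℝ} (hab : a ≠ 0 ∨ b ≠ 0)
    (hst' : ∀ x, (a : ℂ) * F (Function.update x j false) = b * F (Function.update x j true)) :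
    ∃ α β : ℝ, α ^ 2 + β ^ 2 = 1 ∧ ∃ φ : (Fin N → Bool) → ℂ, (∀ x, φ (flp j x) = φ x) ∧
      ∀ x, F x = (α + β * sg x j) * φ x := by
  set S0 : (Fin N → Bool) → ℂ := fun x => F (Function.update x j false) with hS0
  set S1 : (Fin N → Bool) → ℂ := fun x => F (Function.update x j true) with hS1
  have hst : ∀ x, (a : ℂ) * S0 x = b * S1 x := hst'
  have hn : 0 < a ^ 2 + b ^ 2 := by
    rcases hab with h | h
    · positivity
    · positivity
  set n : ℝ := a ^ 2 + b ^ 2 with hnd
  have hnC : (n : ℂ) ≠ 0 := by exact_mod_cast hn.ne'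
  have hnC' : (n : ℂ) = (a : ℂ) ^ 2 + (b : ℂ) ^ 2 := by rw [hnd]; push_cast; rfl
  set ρ : ℝ := Real.sqrt (n / 2) with hρ
  have hρ0 : 0 < ρ := Real.sqrt_pos.2 (by positivity)
  have hρ2 : ρ ^ 2 = n / 2 := Real.sq_sqrt (by positivity)
  have hρC : (ρ : ℂ) ≠ 0 := by exact_mod_cast hρ0.ne'
  refine ⟨(a + b) / 2 / ρ, (b - a) / 2 / ρ, ?_, fun x => ρ * ((b * S0 x + a * S1 x) / n), ?_, ?_⟩
  · rw [div_pow _ ρ, div_pow _ ρ, ← add_div, hρ2]
    rw [div_eq_one_iff_eq (by positivity), hnd]
    ring
  · intro x
    have e : ∀ v, Function.update (flp j x) j v = Function.update x j v := by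
      intro v
      unfold flp
      simp
    simp only [hS0, hS1, e]
  · intro x
    have k0 : S0 x = b * ((b * S0 x + a * S1 x) / n) := by
      field_simp
      rw [hnC']
      linear_combination (a : ℂ) * hst x
    have k1 : S1 x = a * ((b * S0 x + a * S1 x) / n) := by
      field_simp
      rw [hnC']
      linear_combination -(b : ℂ) * hst x
    cases hx : x j
    · have e1 : F x = S0 x := by
        rw [hS0]
        simp only
        rw [← hx, Function.update_eq_self]
      rw [e1, k0]
      have : sg x j = 1 := by simp [sg, hx]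
      rw [this, ← k0]
      push_cast
      conv_lhs => rw [k0]
      field_simp
      ring
    · have e1 : F x = S1 x := by
        rw [hS1]
        simp only
        rw [← hx, Function.update_eq_self]
      rw [e1]
      have : sg x j = -1 := by simp [sg, hx]
      rw [this]
      push_cast
      conv_lhs => rw [k1]
      field_simp
      ring

end Pool.Agent.TH334.WQ
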