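import Pool.Agent.TH334.WQ.Bridge

/-!
# The query algorithm of a circuit
-/

set_option autoImplicit false
set_option linter.unusedSectionVars false

namespace Pool.Agent.TH334.WQ

/-- The gate number `t`. -/
abbrev gt (l : List Pool.Agent.H620R2.Gauge.Gate) (t : ℕ) :
    Option Pool.Agent.H620R2.Gauge.Gate := l[t]?

lemma gt_some (l : List Pool.Agent.H620R2.Gauge.Gate) {t : ℕ} (h : t < l.length) :
    ∃ g, gt l t = some g := ⟨l[t], List.getElem?_eq_getElem h⟩

lemma gt_lt (l : List Pool.Agent.H620R2.Gauge.Gate) {t : ℕ} {g : Pool.Agent.H620R2.Gauge.Gate}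
    (h : gt l t = some g) : t < l.length := by
  by_contra h1
  unfold gt at h
  rw [List.getElem?_eq_none (by omega)] at h
  exact absurd h (by simp)

lemma take_gt (l : List Pool.Agent.H620R2.Gauge.Gate) {t : ℕ} {g : Pool.Agent.H620R2.Gauge.Gate}
    (h : gt l t = some g) : l.take (t + 1) = l.take t ++ [g] := by
  unfold gt at h
  rw [List.take_add_one, h]
  rfl

lemma mem_gt (l : List Pool.Agent.H620R2.Gauge.Gate) {t : ℕ} {g : Pool.Agent.H620R2.Gauge.Gate}
    (h : gt l t = some g) : g ∈ l := List.mem_of_getElem? h

open Finset Matrix Pool.Agent.NPC Pool.Agent.H620R2.Gauge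
open Pool.Agent.W938.QX (mix)
open Pool.Agent.W938.Hyb (circAct_append circAct_lin nsq_circAct)
open Pool.Agent.TH334.NR (Alg sg mon)
open Pool.Agent.TH334.PR (KRs SFac)
open Pool.Agent.H572R2 (flp flp_ne)
open scoped Kronecker

variable {m N : ℕ}

/-- The gates before the phase of the gate number `t`. -/
def preO (m : ℕ) : Option Gate → List Gate
  | some g => pre m g
  | none => []

/-- The gates after the phase of the gate number `t`. -/
def midO (m : ℕ) : Option Gate → List Gate
  | some g => mid m g
  | none => []

/-- The gates between two phases. -/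
def Ls (m : ℕ) (c : List Gate) (t : ℕ) : List Gate := midO m (gt c t) ++ preO m (gt c (t + 1))

open Classical in
/-- The index of a string. -/
noncomputable def idx (e : Fin N → List Bool) (z : List Bool) : Option (Fin N) :=
  if h : ∃ i, e i = z then some h.choose else none

lemma idx_some {e : Fin N → List Bool} {z : List Bool} {i : Fin N} (h : idx e z = some i) :
    e i = z := by
  unfold idx at h
  split_ifs at h with h1
  rw [Option.some.injEq] at h
  rw [← h]
  exact h1.choose_spec

lemma idx_eq {e : Fin N → List Bool} (he : Function.Injective e) {z : List Bool} {i : Fin N}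
    (h : e i = z) : idx e z = some i := by
  unfold idx
  have h1 : ∃ i, e i = z := ⟨i, h⟩
  rw [dif_pos h1, Option.some.injEq]
  exact he (h1.choose_spec.trans h.symm)

/-- The string asked by a gate at a basis state. -/
noncomputable def posG (e : Fin N → List Bool) (g : Gate) (s : Fin m → Bool) : Option (Fin N) :=
  match qry m g with
  | some (q, k) => if rd s k = true then idx e (q.map (rd (put s k false))) else none
  | none => none

/-- The position read at a basis state. -/
noncomputable def posC (e : Fin N → List Bool) (c : List Gate)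
    (b : Fin (c.length + 1) × (Fin m → Bool)) : Option (Fin N) :=
  match gt c ((b.1 : ℕ)) with
  | some g => posG e g b.2
  | none => none

lemma init_sq (m : ℕ) : ∑ s : Fin m → Bool, (initSt m s) ^ 2 = 1 := by
  unfold initSt
  simp

/-- The query algorithm of a circuit. -/
noncomputable def algC (B : Oracle) (e : Fin N → List Bool) (m : ℕ) (c : List Gate) :
    Alg N (Fin (c.length + 1) × (Fin m → Bool)) where
  W t := sh c.length ⊗ₖ Mt (mix (fun _ => false) B) (Ls m c t)
  hW t := by
    rw [Matrix.conjTranspose_kronecker, ← Matrix.mul_kronecker_mul, sh_unit, Mt_unit,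
      Matrix.one_kronecker_one]
  pos := posC e c
  v b := if b.1 = 0 then
    ((circAct (mix (fun _ => false) B) (preO m (gt c 0)) (initSt m) b.2 : ℝ) : ℂ) else 0
  hv := by
    unfold Pool.Agent.H572R2.nsq
    rw [Fintype.sum_prod_type, Finset.sum_eq_single 0]
    · have h := nsq_circAct (mix (fun _ => false) B) (preO m (gt c 0)) (initSt m)
      unfold Pool.Agent.H703R2.AA.nsq at h
      rw [init_sq] at h
      rw [← h]
      refine Finset.sum_congr rfl fun s _ => ?_
      simp only [if_true]
      rw [Complex.norm_real, Real.norm_eq_abs, sq_abs]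
    · intro r _ hr
      refine Finset.sum_eq_zero fun s _ => ?_
      simp [hr]
    · intro h
      exact absurd (Finset.mem_univ _) h

/-- The state before the gate number `t`, prepared for the phase. -/
noncomputable def Ph (B A : Oracle) (m : ℕ) (c : List Gate) (t : ℕ) : (Fin m → Bool) → ℝ :=
  circAct (mix A B) (preO m (gt c t)) (circAct (mix A B) (c.take t) (initSt m))

lemma Ph_step (B A : Oracle) (c : List Gate) {t : ℕ} {g : Gate} (hg : gt c t = some g) :
    circAct (mix (fun _ => false) B) (Ls m c t) (fun s => ph m A g s * Ph B A m c t s)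
      = Ph B A m c (t + 1) := by
  have ht : t < c.length := gt_lt c hg
  have h1 : c.take (t + 1) = c.take t ++ [g] := take_gt c hg
  unfold Ls Ph
  rw [circAct_append, hg, h1, circAct_append]
  have h2 : ∀ ψ : (Fin m → Bool) → ℝ,
      circAct (mix A B) (preO m (some g)) ψ = circAct (mix (fun _ => false) B) (pre m g) ψ :=
    fun ψ => pre_local A B g ψ
  rw [h2]
  show circAct _ (preO m (gt c (t + 1))) (circAct _ (mid m g) _) = _
  rw [gate_eq A B g]
  show circAct _ (preO m (gt c (t + 1))) _ = circAct (mix A B) (preO m (gt c (t + 1))) (gateAct _ g _)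
  cases h3 : gt c (t + 1) with
  | none => rfl
  | some g' => exact (pre_local A B g' _).symm

variable {e : Fin N → List Bool} {AO : (Fin N → Bool) → Oracle} {B : Oracle} {c : List Gate}

lemma mon_pos (he : Function.Injective e) (hAO : ∀ y i, AO y (e i) = y i)
    (hc : ∀ q k, Sum.inr (true, q, k) ∈ c → q.length % 2 = 0 → ∀ z : List Bool,
      z.length = q.length → ∃ i, e i = z) {t : Fin (c.length + 1)} {g : Gate}
    (hg : gt c ((t : ℕ)) = some g) (y : Fin N → Bool) (s : Fin m → Bool) :
    mon (sg y) ((algC B e m c).os (t, s)) = ((ph m (AO y) g s : ℝ) : ℂ) := by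
  unfold Alg.os
  show mon (sg y) (Option.toFinset (posC e c (t, s))) = _
  unfold posC
  simp only [hg]
  unfold posG ph
  cases hq : qry m g with
  | none => simp [mon]
  | some qk =>
    obtain ⟨q, k⟩ := qk
    obtain ⟨rfl, hl, hk⟩ := qry_some hq
    simp only
    by_cases hr : rd s k = true
    · have hmem : Sum.inr (true, q, k) ∈ c := mem_gt c hg
      obtain ⟨i, hi⟩ := hc q k hmem hl (q.map (rd (put s k false))) (by simp)
      rw [if_pos hr, idx_eq he hi, ← hi, hAO]
      simp only [hr, true_and, Option.toFinset_some]
      unfold mon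
      rw [Finset.prod_singleton]
      unfold sg
      cases y i <;> simp
    · rw [if_neg hr]
      simp [hr, mon]

theorem st_algC (he : Function.Injective e) (hAO : ∀ y i, AO y (e i) = y i)
    (hc : ∀ q k, Sum.inr (true, q, k) ∈ c → q.length % 2 = 0 → ∀ z : List Bool,
      z.length = q.length → ∃ i, e i = z) (y : Fin N → Bool) :
    ∀ t ≤ c.length, ∀ b : Fin (c.length + 1) × (Fin m → Bool),
      (algC B e m c).st (sg y) t b
        = if (b.1 : ℕ) = t then ((Ph B (AO y) m c t b.2 : ℝ) : ℂ) else 0 := by
  intro t
  induction t with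
  | zero =>
    intro _ b
    show (if b.1 = 0 then _ else (0 : ℂ)) = _
    have e1 : (b.1 = 0) ↔ ((b.1 : ℕ) = 0) := by
      constructor
      · intro h; rw [h]; rfl
      · intro h; exact Fin.ext h
    simp only [e1]
    split_ifs
    · unfold Ph
      simp only [List.take_zero]
      cases h3 : gt c 0 with
      | none => rfl
      | some g' =>
        exact congrArg (fun f : (Fin m → Bool) → ℝ => ((f b.2 : ℝ) : ℂ))
          (pre_local (AO y) B g' (initSt m)).symm
    · rfl
  | succ t ih =>
    intro ht b
    obtain ⟨r', s'⟩ := b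
    obtain ⟨g, hg⟩ := gt_some c (t := t) (by omega)
    rw [Alg.st_succ]
    simp only [mulVec, dotProduct]
    rw [Fintype.sum_prod_type]
    have hstep : ∀ r : Fin (c.length + 1), ∀ s : Fin m → Bool,
        (algC B e m c).W t (r', s') (r, s) * (mon (sg y) ((algC B e m c).os (r, s))
          * (algC B e m c).st (sg y) t (r, s))
        = if (r : ℕ) = t then (if r' = r + 1 then
            Mt (mix (fun _ => false) B) (Ls m c t) s' s
              * ((ph m (AO y) g s * Ph B (AO y) m c t s : ℝ) : ℂ) else 0) else 0 := by
      intro r s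
      rw [ih (by omega) (r, s)]
      by_cases hr : (r : ℕ) = t
      · rw [if_pos hr, if_pos hr]
        have hg' : gt c ((r : ℕ)) = some g := by rw [hr]; exact hg
        rw [mon_pos he hAO hc hg' y s]
        show (sh c.length r' r * Mt _ _ s' s) * _ = _
        unfold sh
        split_ifs
        · push_cast; ring
        · ring
      · rw [if_neg hr, if_neg hr]
        ring
    simp only [hstep]
    set r0 : Fin (c.length + 1) := ⟨t, by omega⟩ with hr0
    rw [Finset.sum_eq_single r0]
    · simp only [hr0, if_true]
      have e2 : (r' = (⟨t, by omega⟩ : Fin (c.length + 1)) + 1) ↔ ((r' : ℕ) = t + 1) := by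
        rw [Fin.ext_iff]
        have : (((⟨t, by omega⟩ : Fin (c.length + 1)) + 1 : Fin (c.length + 1)) : ℕ) = t + 1 := by
          rw [Fin.val_add_one_of_lt']
          simpa using ht
        rw [this]
      simp only [e2]
      by_cases h4 : (r' : ℕ) = t + 1
      · simp only [h4, if_true]
        rw [Mt_mulVec, Ph_step B (AO y) c hg]
      · simp only [h4, if_false, Finset.sum_const_zero]
    · intro r _ hr
      refine Finset.sum_eq_zero fun s _ => ?_
      have : ¬ (r : ℕ) = t := fun h => hr (Fin.ext h)
      rw [if_neg this]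
    · intro h
      exact absurd (Finset.mem_univ _) h

end Pool.Agent.TH334.WQ
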