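import Pool.Agent.TH334.WQ.Bridge2

/-!
# A circuit with few entangled questions is a query algorithm with few entangled reads
-/

set_option autoImplicit false
set_option linter.unusedSectionVars false

namespace Pool.Agent.TH334.WQ

open Finset Matrix Pool.Agent.NPC Pool.Agent.H620R2.Gauge
open Pool.Agent.W938.QX (mix)
open Pool.Agent.W938.Hyb (circAct_append circAct_lin nsq_circAct)
open Pool.Agent.TH334.NR (Alg sg mon)
open Pool.Agent.TH334.PR (KRs SFac)
open Pool.Agent.H572R2 (flp flp_ne)

variable {m N : ℕ}

lemma setO_AO {e : Fin N → List Bool} {AO : (Fin N → Bool) → Oracle}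
    (hAO : ∀ y i, AO y (e i) = y i) (hAO0 : ∀ y z, (∀ i, e i ≠ z) → AO y z = false)
    (y : Fin N → Bool) (j : Fin N) (v : Bool) :
    setO (AO y) (e j) v = AO (Function.update y j v) := by
  funext z
  unfold setO
  by_cases hz : z = e j
  · rw [if_pos hz, hz, hAO, Function.update_self]
  · rw [if_neg hz]
    by_cases h : ∃ i, e i = z
    · obtain ⟨i, rfl⟩ := h
      have hij : i ≠ j := fun h => hz (by rw [h])
      rw [hAO, hAO, Function.update_of_ne hij]
    · have h' : ∀ i, e i ≠ z := fun i hi => h ⟨i, hi⟩
      rw [hAO0 _ _ h', hAO0 _ _ h']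

lemma split_gt (l : List Pool.Agent.H620R2.Gauge.Gate) {t : ℕ} {g : Pool.Agent.H620R2.Gauge.Gate}
    (h : gt l t = some g) : l = l.take t ++ g :: l.drop (t + 1) := by
  have h1 := take_gt l h
  calc l = l.take (t + 1) ++ l.drop (t + 1) := (List.take_append_drop _ _).symm
    _ = _ := by rw [h1, List.append_assoc]; rfl

lemma Ph_dif (B A : Oracle) (c : List Gate) {t : ℕ} {g : Gate} (hg : gt c t = some g)
    {q : List ℕ} {k : ℕ} (hq : qry m g = some (q, k)) (s : Fin m → Bool) (hr : rd s k = true) :
    Ph B A m c t s = dif (mix A B) (c.take t) k s / Real.sqrt 2 := by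
  obtain ⟨rfl, hl, hk⟩ := qry_some hq
  have hp : preO m (gt c t) = [Sum.inl k] := by
    rw [hg]
    show pre m _ = _
    unfold pre
    rw [hq]
  unfold Ph
  rw [hp]
  show gateAct (mix A B) (Sum.inl k) (circAct (mix A B) (c.take t) (initSt m)) s = _
  rw [had hk, if_pos hr]
  unfold dif
  ring

lemma fac_algC {e : Fin N → List Bool} {AO : (Fin N → Bool) → Oracle} {B : Oracle}
    {c : List Gate} (he : Function.Injective e)
    (hAO : ∀ y i, AO y (e i) = y i) (hAO0 : ∀ y z, (∀ i, e i ≠ z) → AO y z = false)
    (hc : ∀ q k, Sum.inr (true, q, k) ∈ c → q.length % 2 = 0 → ∀ z : List Bool,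
      z.length = q.length → ∃ i, e i = z)
    {t : ℕ} (ht : t < c.length) (b : Fin (c.length + 1) × (Fin m → Bool))
    (hP : (b.1 : ℕ) = t → ∀ g q k, gt c t = some g → qry m g = some (q, k) →
      ProductAt B (c.take t) q k b.2)
    (j : Fin N) (hj : posC e c b = some j) : SFac (algC B e m c) t b j := by
  obtain ⟨r, s⟩ := b
  by_cases hr : (r : ℕ) = t
  · obtain ⟨g, hg⟩ := gt_some c ht
    have hj' := hj
    unfold posC at hj'
    simp only [hr, hg] at hj'
    unfold posG at hj'
    cases hq : qry m g with
    | none => rw [hq] at hj'; simp at hj'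
    | some qk =>
      obtain ⟨q, k⟩ := qk
      rw [hq] at hj'
      simp only at hj'
      by_cases hrd : rd s k = true
      · rw [if_pos hrd] at hj'
        have hez := idx_some hj'
        obtain ⟨a, b, hab, h1⟩ := hP hr g q k hg hq
        have h2 : ∀ x, (algC B e m c).st (sg x) t (r, s)
            = ((dif (mix (AO x) B) (c.take t) k s / Real.sqrt 2 : ℝ) : ℂ) := by
          intro x
          rw [st_algC he hAO hc x t ht.le (r, s), if_pos hr, Ph_dif B (AO x) c hg hq s hrd]
        obtain ⟨α, β, h3, φ, h4, h5⟩ := sfac_of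
          (fun x => ((dif (mix (AO x) B) (c.take t) k s / Real.sqrt 2 : ℝ) : ℂ)) j hab
          (by
            intro x
            have h6 := h1 (AO x)
            rw [← hez, setO_AO hAO hAO0, setO_AO hAO hAO0] at h6
            rw [← Complex.ofReal_mul, ← Complex.ofReal_mul]
            congr 1
            rw [mul_div_assoc', mul_div_assoc', h6])
        exact ⟨α, β, h3, φ, h4, fun x => by rw [h2]; exact h5 x⟩
      · rw [if_neg hrd] at hj'
        exact absurd hj' (by simp)
  · refine ⟨1, 0, by norm_num, fun _ => 0, fun _ => rfl, fun x => ?_⟩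
    rw [st_algC he hAO hc x t ht.le (r, s), if_neg hr]
    simp

/-! ### The counters -/

lemma path_append (O : Oracle) (l l' : List Gate) (s s' : Fin m → Bool)
    (h : circAct O (l ++ l') (fun r => if r = s then (1 : ℝ) else 0) s' ≠ 0) :
    ∃ u, circAct O l (fun r => if r = s then (1 : ℝ) else 0) u ≠ 0 ∧
      circAct O l' (fun r => if r = u then (1 : ℝ) else 0) s' ≠ 0 := by
  by_contra hcon
  push Not at hcon
  apply h
  rw [circAct_append]
  set ψ := circAct O l (fun r => if r = s then (1 : ℝ) else 0) with hψ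
  have h1 := circAct_lin O (Finset.univ : Finset (Fin m → Bool)) ψ l'
    (fun s r => if r = s then (1 : ℝ) else 0) s'
  rw [delta_sum] at h1
  rw [h1]
  refine Finset.sum_eq_zero fun u _ => ?_
  by_cases hu : ψ u = 0
  · rw [hu, zero_mul]
  · rw [hcon u hu, mul_zero]

lemma had_move {O : Oracle} {k : ℕ} (hk : k < m) (s u : Fin m → Bool)
    (h : circAct O [Sum.inl k] (fun r => if r = s then (1 : ℝ) else 0) u ≠ 0) :
    ∃ v, u = put s k v := by
  by_contra hcon
  push Not at hcon
  apply h
  show gateAct O (Sum.inl k) (fun r => if r = s then (1 : ℝ) else 0) u = 0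
  rw [had hk]
  have e : ∀ v, ¬ put u k v = s := by
    intro v hv
    apply hcon (rd u k)
    rw [← hv, put_put, put_rd]
  rw [if_neg (e false), if_neg (e true)]
  simp

lemma moves_even (B : Oracle) {q : List ℕ} {k : ℕ} (hl : q.length % 2 = 0) (hk : k < m)
    (s : Fin m → Bool) (v w : Bool) :
    Moves B (Sum.inr (true, q, k)) (put s k v) (put s k w) := by
  refine ⟨fun _ => w ^^ v, ?_⟩
  show (if flipIf _ k (put s k w) = put s k v then (1 : ℝ) else 0) ≠ 0
  rw [if_pos]
  · exact one_ne_zero
  · unfold flipIf
    rw [dif_pos hk]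
    show Function.update (put s k w) ⟨k, hk⟩ (put s k w ⟨k, hk⟩ ^^
      mix (fun _ => w ^^ v) B (q.map (rd (Function.update (put s k w) ⟨k, hk⟩ false)))) = put s k v
    rw [mix_even (by simpa using hl)]
    have e1 : put s k w ⟨k, hk⟩ = w := by
      have := rd_put hk s w
      unfold rd at this
      rw [dif_pos hk] at this
      exact this
    rw [e1]
    have e2 : (w ^^ (w ^^ v)) = v := by cases w <;> cases v <;> rfl
    rw [e2]
    have e3 : Function.update (put s k w) ⟨k, hk⟩ v = put (put s k w) k v := by
      conv_rhs => rw [put, dif_pos hk]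
    rw [e3, put_put]

/-- The counter at a basis state of the phase. -/
def Mx (n : ℕ → (Fin m → Bool) → ℕ) (c : List Gate) (t : ℕ) (s : Fin m → Bool) : ℕ :=
  match (gt c t).bind (qry m) with
  | some (_, k) => max (n t (put s k false)) (n t (put s k true))
  | none => n t s

lemma Mx_some {n : ℕ → (Fin m → Bool) → ℕ} {c : List Gate} {t : ℕ} {g : Gate}
    (hg : gt c t = some g) {q : List ℕ} {k : ℕ} (hq : qry m g = some (q, k)) (s : Fin m → Bool) :
    Mx n c t s = max (n t (put s k false)) (n t (put s k true)) := by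
  unfold Mx
  rw [hg, Option.bind_some, hq]

lemma Mx_none {n : ℕ → (Fin m → Bool) → ℕ} {c : List Gate} {t : ℕ}
    (hg : (gt c t).bind (qry m) = none) (s : Fin m → Bool) : Mx n c t s = n t s := by
  unfold Mx
  rw [hg]

lemma up (n : ℕ → (Fin m → Bool) → ℕ) (c : List Gate) (t : ℕ) (O : Oracle) (u s' : Fin m → Bool)
    (h : circAct O (preO m (gt c t)) (fun r => if r = u then (1 : ℝ) else 0) s' ≠ 0) :
    n t u ≤ Mx n c t s' := by
  have hid : (gt c t).bind (qry m) = none → preO m (gt c t) = [] := by
    intro hb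
    cases h3 : gt c t with
    | none => rfl
    | some g =>
      rw [h3, Option.bind_some] at hb
      show pre m g = []
      unfold pre
      rw [hb]
  cases h4 : (gt c t).bind (qry m) with
  | none =>
    rw [hid h4] at h
    have h5 : s' = u := by
      by_contra hne
      apply h
      show (if s' = u then (1 : ℝ) else 0) = 0
      rw [if_neg hne]
    rw [Mx_none h4, h5]
  | some qk =>
    obtain ⟨q, k⟩ := qk
    obtain ⟨g, hg, hq⟩ := Option.bind_eq_some_iff.1 h4
    obtain ⟨-, -, hk⟩ := qry_some hq
    have hp : preO m (gt c t) = [Sum.inl k] := by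
      rw [hg]
      show pre m _ = _
      unfold pre
      rw [hq]
    rw [hp] at h
    obtain ⟨v, hv⟩ := had_move hk u s' h
    rw [Mx_some hg hq, hv, put_put, put_put]
    have h6 : u = put u k (rd u k) := (put_rd u).symm
    cases h7 : rd u k
    · rw [h7] at h6
      rw [← h6]
      exact le_max_left _ _
    · rw [h7] at h6
      rw [← h6]
      exact le_max_right _ _

lemma productAt_put {B : Oracle} {l : List Gate} {q : List ℕ} {k : ℕ} {s : Fin m → Bool} {v : Bool} :
    ProductAt B l q k (put s k v) ↔ ProductAt B l q k s := by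
  unfold ProductAt dif
  simp only [put_put]

lemma down {B : Oracle} {c : List Gate} {n : ℕ → (Fin m → Bool) → ℕ}
    (hn : ∀ (l : List Gate) (g : Gate) (l' : List Gate), c = l ++ g :: l' →
      ∀ s u : Fin m → Bool, Moves B g s u →
        n l.length s ≤ n (l.length + 1) u ∧ (Entangled B l g s → n l.length s < n (l.length + 1) u))
    {t : ℕ} {g : Gate} (hg : gt c t = some g) (s u : Fin m → Bool)
    (h : circAct (mix (fun _ => false) B) (midO m (gt c t))
      (fun r => if r = s then (1 : ℝ) else 0) u ≠ 0) :
    Mx n c t s ≤ n (t + 1) u ∧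
      ((∃ q k, qry m g = some (q, k) ∧ ¬ ProductAt B (c.take t) q k s) → Mx n c t s < n (t + 1) u) := by
  have ht := gt_lt c hg
  have hlen : (c.take t).length = t := by
    rw [List.length_take]
    omega
  have hs := hn _ _ _ (split_gt c hg)
  rw [hlen] at hs
  cases hq : qry m g with
  | none =>
    have hm : midO m (gt c t) = [g] := by
      rw [hg]
      show mid m g = _
      unfold mid
      rw [hq]
    rw [hm] at h
    have hMx : Mx n c t s = n t s := Mx_none (by rw [hg, Option.bind_some, hq]) s
    rw [hMx]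
    refine ⟨(hs s u ⟨fun _ => false, h⟩).1, ?_⟩
    rintro ⟨q, k, h1, -⟩
    exact absurd h1 (by simp)
  | some qk =>
    obtain ⟨q, k⟩ := qk
    obtain ⟨rfl, hl, hk⟩ := qry_some hq
    have hm : midO m (gt c t) = [Sum.inl k] := by
      rw [hg]
      show mid m _ = _
      unfold mid
      rw [hq]
    rw [hm] at h
    obtain ⟨v, hv⟩ := had_move hk s u h
    rw [Mx_some hg hq, hv]
    have h1 : ∀ w, n t (put s k w) ≤ n (t + 1) (put s k v) ∧
        (¬ ProductAt B (c.take t) q k s → n t (put s k w) < n (t + 1) (put s k v)) := by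
      intro w
      obtain ⟨h2, h3⟩ := hs _ _ (moves_even B hl hk s w v)
      exact ⟨h2, fun h4 => h3 ⟨q, k, rfl, hl, fun h5 => h4 (productAt_put.1 h5)⟩⟩
    refine ⟨max_le (h1 false).1 (h1 true).1, ?_⟩
    rintro ⟨q', k', h5, h6⟩
    rw [Option.some.injEq, Prod.mk.injEq] at h5
    obtain ⟨rfl, rfl⟩ := h5
    exact max_lt ((h1 false).2 h6) ((h1 true).2 h6)

open Classical in
/-- The bridge: a circuit with few entangled questions is a query algorithm with few entangled
reads. `e` lists the strings which may be asked, `AO y` is the oracle with the answers `y`. -/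
theorem bridge (B : Oracle) (N m : ℕ) (e : Fin N → List Bool) (AO : (Fin N → Bool) → Oracle)
    (c : List Gate) (K : ℕ) (he : Function.Injective e) (hAO : ∀ y i, AO y (e i) = y i)
    (hAO0 : ∀ y z, (∀ i, e i ≠ z) → AO y z = false)
    (hc : ∀ q k, Sum.inr (true, q, k) ∈ c → q.length % 2 = 0 → ∀ z : List Bool,
      z.length = q.length → ∃ i, e i = z)
    (hP : FewEntangled B m c K) :
    ∃ (Al : Alg N (Fin (c.length + 1) × (Fin m → Bool)))
      (Ac : Finset (Fin (c.length + 1) × (Fin m → Bool)))
      (cc : ℕ → Fin (c.length + 1) × (Fin m → Bool) → ℕ)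
      (X : ℕ → Finset (Fin (c.length + 1) × (Fin m → Bool))),
      KRs Al c.length K cc X ∧
      ∀ y, Al.ap c.length Ac y =
        ∑ s : Fin m → Bool, if rd s 0 then circAct (mix (AO y) B) c (initSt m) s ^ 2 else 0 := by
  obtain ⟨n, hnK, hn⟩ := hP
  refine ⟨algC B e m c, Finset.univ.filter (fun b => (b.1 : ℕ) = c.length ∧ rd b.2 0 = true),
    fun t b => if (b.1 : ℕ) = t then Mx n c t b.2 else 0,
    fun t => Finset.univ.filter (fun b => (b.1 : ℕ) = t ∧ ∃ g q k, gt c t = some g ∧
      qry m g = some (q, k) ∧ ¬ ProductAt B (c.take t) q k b.2), ⟨?_, ?_, ?_⟩, fun y => ?_⟩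
  · intro t b
    split_ifs
    · unfold Mx
      split
      · exact max_le (hnK _ _) (hnK _ _)
      · exact hnK _ _
    · exact Nat.zero_le _
  · intro t ht b b' hw
    obtain ⟨r, s⟩ := b
    obtain ⟨r', s'⟩ := b'
    simp only [Finset.mem_filter, Finset.mem_univ, true_and]
    by_cases hr : (r : ℕ) = t
    · rw [if_pos hr]
      have hw' : sh c.length r' r * Mt (mix (fun _ => false) B) (Ls m c t) s' s ≠ 0 := hw
      have hsh : r' = r + 1 := by
        by_contra hne
        apply hw'
        unfold sh
        rw [if_neg hne, zero_mul]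
      have hr' : (r' : ℕ) = t + 1 := by
        have e2 : r = (⟨t, by omega⟩ : Fin (c.length + 1)) := Fin.ext hr
        rw [hsh, e2, Fin.val_add_one_of_lt']
        simpa using ht
      rw [if_pos hr']
      have hM : Mt (mix (fun _ => false) B) (Ls m c t) s' s ≠ 0 := right_ne_zero_of_mul hw'
      unfold Mt at hM
      rw [Complex.ofReal_ne_zero] at hM
      obtain ⟨u, h1, h2⟩ := path_append _ _ _ _ _ hM
      obtain ⟨g, hg⟩ := gt_some c ht
      obtain ⟨h3, h4⟩ := down hn hg s u h1
      have h5 := up n c (t + 1) _ u s' h2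
      by_cases hX : (r : ℕ) = t ∧ ∃ g q k, gt c t = some g ∧ qry m g = some (q, k) ∧
          ¬ ProductAt B (c.take t) q k s
      · rw [if_pos hX]
        obtain ⟨-, g', q, k, hg', hq, hp⟩ := hX
        rw [hg, Option.some.injEq] at hg'
        subst hg'
        have := h4 ⟨q, k, hq, hp⟩
        omega
      · rw [if_neg hX]
        omega
    · have hX : ¬ ((r : ℕ) = t ∧ ∃ g q k, gt c t = some g ∧ qry m g = some (q, k) ∧
          ¬ ProductAt B (c.take t) q k s) := fun h => hr h.1
      rw [if_neg hr, if_neg hX]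
      exact Nat.zero_le _
  · intro t ht b hb j hj
    refine fac_algC he hAO hAO0 hc ht b (fun hr g q k hg hq => ?_) j hj
    by_contra hp
    apply hb
    rw [Finset.mem_filter]
    exact ⟨Finset.mem_univ _, hr, g, q, k, hg, hq, hp⟩
  · unfold Alg.ap
    rw [Finset.sum_filter, Fintype.sum_prod_type, Finset.sum_eq_single (Fin.last c.length)]
    · refine Finset.sum_congr rfl fun s _ => ?_
      have h1 : Ph B (AO y) m c c.length s = circAct (mix (AO y) B) c (initSt m) s := by
        unfold Ph
        have : gt c c.length = none := List.getElem?_eq_none le_rfl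
        rw [this, List.take_length]
        rfl
      simp only [Fin.val_last, true_and]
      split_ifs
      · rw [st_algC he hAO hc y c.length le_rfl]
        simp only [Fin.val_last, if_true]
        rw [h1, Complex.norm_real, Real.norm_eq_abs, sq_abs]
      · rfl
    · intro r _ hr
      refine Finset.sum_eq_zero fun s _ => ?_
      have : ¬ ((r : ℕ) = c.length) := fun h => hr (Fin.ext (by simpa using h))
      simp [this]
    · intro h
      exact absurd (Finset.mem_univ _) h

end Pool.Agent.TH334.WQ
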