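import Pool.Agent.TH682.WC.Defs
import Pool.Agent.TH334.PR.VarP

/-!
# Quantum circuits with few entangled questions of even length
-/

set_option autoImplicit false

namespace Pool.Agent.TH334.WQ

open Pool.Agent.NPC Pool.Agent.H620R2.Gauge
open Pool.Agent.W938.QX (mix)

/-- The oracle `A` with the answer `v` for the string `z`. -/
def setO (A : Oracle) (z : List Bool) (v : Bool) : Oracle := fun y => if y = z then v else A y

/-- The basis state `s` with the value `v` of the qubit `k`. -/
def put {m : ℕ} (s : Fin m → Bool) (k : ℕ) (v : Bool) : Fin m → Bool :=
  if h : k < m then Function.update s ⟨k, h⟩ v else s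

/-- The difference of the amplitudes of the basis states `s` with the value `0` and with the value
`1` of the qubit `k`, after the gates `l`. -/
noncomputable def dif (O : Oracle) {m : ℕ} (l : List Gate) (k : ℕ) (s : Fin m → Bool) : ℝ :=
  circAct O l (initSt m) (put s k false) - circAct O l (initSt m) (put s k true)

/-- After the gates `l`, the question about the string `z` in the qubits `q`, whose answer is added
to the qubit `k`, is a product question in the basis state `s`: the difference of the two amplitudes
which are exchanged if the answer is yes is, for the answers no and yes to `z`, proportional, with a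
real ratio (possibly `0` or `∞`) that does not depend on the other answers of the oracle `A` for the
strings of even length. -/
def ProductAt (B : Oracle) {m : ℕ} (l : List Gate) (q : List ℕ) (k : ℕ) (s : Fin m → Bool) : Prop :=
  ∃ a b : ℝ, (a ≠ 0 ∨ b ≠ 0) ∧ ∀ A : Oracle,
    a * dif (mix (setO A (q.map (rd (put s k false))) false) B) l k s =
      b * dif (mix (setO A (q.map (rd (put s k false))) true) B) l k s

/-- The gate `g`, which comes after the gates `l`, is a question about a string of even length which
is, in the basis state `s`, not a product question. -/
def Entangled (B : Oracle) {m : ℕ} (l : List Gate) (g : Gate) (s : Fin m → Bool) : Prop :=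
  ∃ q k, g = Sum.inr (true, q, k) ∧ q.length % 2 = 0 ∧ ¬ ProductAt B l q k s

/-- The gate `g` can move the basis state `s` to the basis state `u`: for some oracle `A` on the
strings of even length it has a nonzero amplitude there. -/
def Moves (B : Oracle) {m : ℕ} (g : Gate) (s u : Fin m → Bool) : Prop :=
  ∃ A : Oracle, gateAct (mix A B) g (fun r => if r = s then 1 else 0) u ≠ 0

/-- Every computational path of the circuit `c` on `m` qubits makes at most `K` entangled questions
about strings of even length: there are counters `n t` (for the time after `t` gates) with values at
most `K` on the basis states which never decrease along the moves of the gates and which increase at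
the entangled questions. -/
def FewEntangled (B : Oracle) (m : ℕ) (c : List Gate) (K : ℕ) : Prop :=
  ∃ n : ℕ → (Fin m → Bool) → ℕ, (∀ t s, n t s ≤ K) ∧
    ∀ (l : List Gate) (g : Gate) (l' : List Gate), c = l ++ g :: l' →
      ∀ s u : Fin m → Bool, Moves B g s u →
        n l.length s ≤ n (l.length + 1) u ∧ (Entangled B l g s → n l.length s < n (l.length + 1) u)

/-- The promise problem `(Y, N)` (the strings in `Y` are to be accepted and the strings in `N` are to
be rejected) is decided by quantum circuits all of whose paths make, on inputs of length `n`, at most
`r n` entangled questions about strings of even length: for the input `x` one computes first, in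
polynomial time relative to `mix A B`, a string `F x`, and then, in polynomial time, the circuit
`C (F x)`, which accepts with probability at least `c` if `x` is in `Y` and with probability at most
`s` if `x` is in `N`. -/
def IsBQPE (r : ℕ → ℕ) (c s : ℝ) (A B : Oracle) (Y N : Set (List Bool)) : Prop :=
  ∃ (F : List Bool → List Bool) (C : List Bool → List Unit × List Gate),
    IsFP (mix A B) F ∧ PolyTime (fun z => bits (C z)) ∧
    ∀ x, (x ∈ Y → FewEntangled B (C (F x)).1.length (C (F x)).2 (r x.length) ∧
          c ≤ accProb (mix A B) (C (F x))) ∧
      (x ∈ N → FewEntangled B (C (F x)).1.length (C (F x)).2 (r x.length) ∧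
          accProb (mix A B) (C (F x)) ≤ s)

end Pool.Agent.TH334.WQ
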