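import Pool.Agent.TH334.WQ.Main

/-!
# Classes of promise problems
-/

set_option autoImplicit false
set_option linter.unusedSectionVars false

namespace Pool.Agent.TH334.WQ

open Pool.Agent.NPC Pool.Agent.H620R2.Gauge Pool.Agent.W938.Hyb
open Pool.Agent.H628R3.RO (randomOracle)
open Pool.Agent.W938.QX (mix)
open Pool.Agent.TH682.WC (IsDTime circ_bound poly_bitsF poly_of_bits p_of_dtime)

/-- The estimate of all acceptance probabilities. -/
def Est (A B : Oracle) : Prop :=
  ∃ G : List Bool → List Bool, IsFP (mix A B) G ∧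
    ∀ (c : List Unit × List Gate) (k : List Unit) (r : ℕ) (s : List Bool),
      1 ≤ k.length → FewEntangled B c.1.length c.2 r →
      ((bits (c, k)).length + 2) ^ (40 * (r + 1)) ≤ s.length →
      |accProb (mix A B) c - (G (pairBits (bits (c, k)) s)).length / (2 * k.length)| ≤ 1 / k.length

theorem dtime_of_est {A B : Oracle} (hE : Est A B) (r : ℕ → ℕ) (c s : ℝ) (Y N : Set (List Bool))
    (hsc : s < c) (h : IsBQPE r c s A B Y N) :
    ∃ d : ℕ, IsDTime (fun n => (n + 2) ^ (d * (r n + 1))) (mix A B) Y N := by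
  obtain ⟨G, hG, hEst⟩ := hE
  obtain ⟨F, C, hF, hC, hx⟩ := h
  obtain ⟨k₀, hk₀⟩ := exists_nat_gt (2 / (c - s))
  have hcs : 0 < c - s := by linarith
  have hk0 : (0 : ℝ) < k₀ := lt_trans (by positivity) hk₀
  have hk1 : 1 ≤ k₀ := by
    have : 0 < k₀ := by exact_mod_cast hk0
    omega
  have hk2 : (1 : ℝ) / k₀ < (c - s) / 2 := by
    rw [div_lt_iff₀ hcs] at hk₀
    rw [div_lt_div_iff₀ hk0 (by norm_num)]
    linarith
  set k : List Unit := List.replicate k₀ () with hk
  have hkl : k.length = k₀ := List.length_replicate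
  obtain ⟨d, hd⟩ := circ_bound hF hC k
  set t₀ : ℕ := ⌈(c + s) * k₀⌉₊ with ht
  set V : List Bool → List Bool := fun z =>
    [decide (t₀ ≤ (G (pairBits (bits (C (F (unpair z).1), k)) (unpair z).2)).length)] with hV
  have hCp : NPC.Poly C := poly_of_bits hC
  have hVfp : IsFP (mix A B) V := by
    have h1 : IsFP (mix A B) (fun z => pairBits (F (unpair z).1) (unpair z).2) :=
      IsFP.pair (hF.comp (IsFP.of_poly (F := fun z => (unpair z).1) (NPC.Poly.fst poly_unpair)))
        (IsFP.of_poly (F := fun z => (unpair z).2) (NPC.Poly.snd poly_unpair))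
    have h2 : NPC.Poly (fun v : List Bool => pairBits (bits (C (unpair v).1, k)) (unpair v).2) :=
      Pool.Agent.H622R2.poly_pairBits (poly_bitsF (NPC.Poly.pair
        (hCp.comp (NPC.Poly.fst poly_unpair)) (NPC.Poly.const k))) (NPC.Poly.snd poly_unpair)
    have h3 : NPC.Poly (fun v : List Bool => [decide (t₀ ≤ v.length)]) :=
      NPC.Poly.cons (NPC.Poly.decide_le (NPC.Poly.const t₀) (NPC.Poly.length NPC.Poly.id))
        (NPC.Poly.const [])
    have h4 := (IsFP.of_poly (A := mix A B) h3).comp (hG.comp ((IsFP.of_poly (A := mix A B) h2).comp h1))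
    refine (congrArg (IsFP (mix A B)) ?_).mp h4
    funext z
    simp only [hV, unpair_pairBits]
  refine ⟨40 * d, V, hVfp, fun x w hw => ?_⟩
  have hpad : ((bits (C (F x), k)).length + 2) ^ (40 * (r x.length + 1)) ≤ w.length := by
    refine le_trans ?_ hw
    refine (Nat.pow_le_pow_left (hd x) _).trans (le_of_eq ?_)
    rw [← pow_mul]
    congr 1
    ring
  have hVx : V (pairBits x w) =
      [decide (t₀ ≤ (G (pairBits (bits (C (F x), k)) w)).length)] := by
    simp only [hV, unpair_pairBits]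
  rw [hVx]
  constructor
  · intro hxY
    obtain ⟨h1, h2⟩ := (hx x).1 hxY
    have h3 := hEst (C (F x)) k (r x.length) w (by rw [hkl]; exact hk1) h1 hpad
    rw [hkl] at h3
    set g : ℕ := (G (pairBits (bits (C (F x), k)) w)).length with hg
    have h4 := (abs_le.1 h3).2
    have h5 : (c + s) / 2 ≤ (g : ℝ) / (2 * k₀) := by linarith
    rw [le_div_iff₀ (by positivity)] at h5
    have h6 : t₀ ≤ g := by
      rw [ht, Nat.ceil_le]
      linarith
    rw [decide_eq_true h6]
  · intro hxN
    obtain ⟨h1, h2⟩ := (hx x).2 hxN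
    have h3 := hEst (C (F x)) k (r x.length) w (by rw [hkl]; exact hk1) h1 hpad
    rw [hkl] at h3
    set g : ℕ := (G (pairBits (bits (C (F x), k)) w)).length with hg
    have h4 := (abs_le.1 h3).1
    have h5 : (g : ℝ) / (2 * k₀) < (c + s) / 2 := by linarith
    rw [div_lt_iff₀ (by positivity)] at h5
    have h6 : ¬ t₀ ≤ g := by
      rw [not_le, ht, Nat.lt_ceil]
      linarith
    rw [decide_eq_false h6]


/-- The theorem on few entangled questions to a random oracle. -/
theorem final (B₀ : Oracle) : ∃ B : Oracle, (∀ z, B (pairBits (false :: z) []) = B₀ z) ∧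
    ∀ᵐ A ∂randomOracle,
      (∃ G : List Bool → List Bool, IsFP (mix A B) G ∧
        ∀ (c : List Unit × List Gate) (k : List Unit) (r : ℕ) (s : List Bool),
          1 ≤ k.length → FewEntangled B c.1.length c.2 r →
          ((bits (c, k)).length + 2) ^ (40 * (r + 1)) ≤ s.length →
          |accProb (mix A B) c - (G (pairBits (bits (c, k)) s)).length / (2 * k.length)| ≤
            1 / k.length) ∧
      (∀ (r : ℕ → ℕ) (c s : ℝ) (Y N : Set (List Bool)), s < c →
        IsBQPE r c s A B Y N →
        ∃ d : ℕ, IsDTime (fun n => (n + 2) ^ (d * (r n + 1))) (mix A B) Y N) ∧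
      ∀ (r : ℕ) (c s : ℝ) (Y N : Set (List Bool)), s < c →
        IsBQPE (fun _ => r) c s A B Y N →
        ∃ L : Set (List Bool), IsP (mix A B) L ∧ Y ⊆ L ∧ Disjoint L N := by
  obtain ⟨B, hB, hae⟩ := main B₀
  refine ⟨B, hB, ?_⟩
  filter_upwards [hae] with A hA
  have hE : Est A B := hA
  refine ⟨hA, fun r c s Y N hsc h => dtime_of_est hE r c s Y N hsc h, ?_⟩
  intro r c s Y N hsc h
  obtain ⟨d, hd⟩ := dtime_of_est hE (fun _ => r) c s Y N hsc h
  exact p_of_dtime _ hd

end Pool.Agent.TH334.WQ
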