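import Pool.Agent.TH334.WQ.Bridge3
import Pool.Agent.TH334.PR.RelF
import Pool.Agent.TH682.WC.Final
import Pool.Agent.H54.RQ.C1

/-!
# The estimate of the acceptance probability relative to a random oracle
-/

set_option autoImplicit false
set_option linter.unusedSectionVars false

namespace Pool.Agent.TH334.WQ

open Finset Pool.Agent.NPC Pool.Agent.H620R2.Gauge Pool.Agent.W938.Hyb
open Pool.Agent.H628R3.RO (randomOracle)
open Pool.Agent.W938.QX (Ev mem_Ev mix)
open Pool.Agent.TH334.NR (Alg DTree)
open Pool.Agent.TH334.PR (KRs rel_final ii)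
open Pool.Agent.H572R2 (EE EE_mono)

/-- The positions read in the first `j` steps. -/
noncomputable def Kt {N : ℕ} : DTree N → ℕ → (Fin N → Bool) → Finset (Fin N)
  | DTree.leaf _, _, _ => ∅
  | DTree.query _ _ _, 0, _ => ∅
  | DTree.query i t0 t1, j + 1, y => insert i (if y i then Kt t1 j y else Kt t0 j y)

variable {N : ℕ}

lemma Kt_zero (T : DTree N) (y : Fin N → Bool) : Kt T 0 y = ∅ := by
  cases T <;> rfl

lemma Kt_sub (T : DTree N) : ∀ (j : ℕ) (y : Fin N → Bool), Kt T j y ⊆ Kt T (j + 1) y := by
  induction T with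
  | leaf v => exact fun j y => Finset.Subset.refl _
  | query i t0 t1 ih0 ih1 =>
    intro j y
    cases j with
    | zero => rw [Kt_zero]; exact Finset.empty_subset _
    | succ j =>
      show insert i (if y i then Kt t1 j y else Kt t0 j y) ⊆
        insert i (if y i then Kt t1 (j + 1) y else Kt t0 (j + 1) y)
      refine Finset.insert_subset_insert i ?_
      split_ifs
      · exact ih1 j y
      · exact ih0 j y

lemma Kt_card (T : DTree N) : ∀ (j : ℕ) (y : Fin N → Bool), (Kt T j y).card ≤ j := by
  induction T with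
  | leaf v => exact fun j y => Nat.zero_le _
  | query i t0 t1 ih0 ih1 =>
    intro j y
    cases j with
    | zero => rw [Kt_zero]; exact le_rfl
    | succ j =>
      show (insert i (if y i then Kt t1 j y else Kt t0 j y)).card ≤ j + 1
      refine (Finset.card_insert_le _ _).trans (Nat.succ_le_succ ?_)
      split_ifs
      · exact ih1 j y
      · exact ih0 j y

lemma Kt_congr (T : DTree N) : ∀ (j : ℕ) (y y' : Fin N → Bool),
    (∀ i ∈ Kt T j y, y' i = y i) → Kt T (j + 1) y' = Kt T (j + 1) y := by
  induction T with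
  | leaf v => exact fun j y y' _ => rfl
  | query i t0 t1 ih0 ih1 =>
    intro j y y' h
    cases j with
    | zero =>
      show insert i (if y' i then Kt t1 0 y' else Kt t0 0 y') =
        insert i (if y i then Kt t1 0 y else Kt t0 0 y)
      simp only [Kt_zero, ite_self]
    | succ j =>
      have h' : ∀ l ∈ insert i (if y i then Kt t1 j y else Kt t0 j y), y' l = y l := h
      have hi := h' i (Finset.mem_insert_self _ _)
      show insert i (if y' i then Kt t1 (j + 1) y' else Kt t0 (j + 1) y') =
        insert i (if y i then Kt t1 (j + 1) y else Kt t0 (j + 1) y)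
      rw [hi]
      by_cases hy : y i = true
      · rw [if_pos hy, if_pos hy]
        rw [if_pos hy] at h'
        rw [ih1 j y y' fun l hl => h' l (Finset.mem_insert_of_mem hl)]
      · rw [if_neg hy, if_neg hy]
        rw [if_neg hy] at h'
        rw [ih0 j y y' fun l hl => h' l (Finset.mem_insert_of_mem hl)]

lemma eval_congr (T : DTree N) : ∀ (D : ℕ) (y y' : Fin N → Bool), T.depth ≤ D →
    (∀ i ∈ Kt T D y, y' i = y i) → T.eval y' = T.eval y := by
  induction T with
  | leaf v => exact fun D y y' _ _ => rfl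
  | query i t0 t1 ih0 ih1 =>
    intro D y y' hD h
    have hD' : max t0.depth t1.depth + 1 ≤ D := hD
    cases D with
    | zero => omega
    | succ D =>
      have h' : ∀ l ∈ insert i (if y i then Kt t1 D y else Kt t0 D y), y' l = y l := h
      have hi := h' i (Finset.mem_insert_self _ _)
      show (if y' i then t1.eval y' else t0.eval y') = if y i then t1.eval y else t0.eval y
      rw [hi]
      by_cases hy : y i = true
      · rw [if_pos hy, if_pos hy]
        rw [if_pos hy] at h'
        exact ih1 D y y' (by have := le_max_right t0.depth t1.depth; omega)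
          fun l hl => h' l (Finset.mem_insert_of_mem hl)
      · rw [if_neg hy, if_neg hy]
        rw [if_neg hy] at h'
        exact ih0 D y y' (by have := le_max_left t0.depth t1.depth; omega)
          fun l hl => h' l (Finset.mem_insert_of_mem hl)

/-- The decision tree. -/
theorem tree_of (B : Oracle) (c : List Unit × List Gate) (K k h L D : ℕ) (hk : 1 ≤ k)
    (hP : FewEntangled B c.1.length c.2 K) (hL : c.2.length ≤ L)
    (hD : 2 ^ 23 * (1 + 208 * (2 * k) * (h + 2) * L ^ 3) ^ K * L ^ 9 * (2 * k * (h + 2)) ^ 6 ≤ D)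
    (e : Fin N → List Bool) (AO : (Fin N → Bool) → Oracle)
    (he : Function.Injective e) (hAO : ∀ y i, AO y (e i) = y i)
    (hAO0 : ∀ y z, (∀ i, e i ≠ z) → AO y z = false)
    (hc : ∀ q k, Sum.inr (true, q, k) ∈ c.2 → q.length % 2 = 0 → ∀ z : List Bool,
      z.length = q.length → ∃ i, e i = z) :
    ∃ T : DTree N, T.depth ≤ D ∧
      EE (fun y => ii (1 / (2 * k)) (accProb (mix (AO y) B) c - T.eval y)) ≤ (1 / 2) ^ h := by
  rcases Nat.eq_zero_or_pos c.2.length with h0 | h0
  · have h1 : c.2 = [] := List.eq_nil_of_length_eq_zero h0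
    refine ⟨DTree.leaf (accProb (fun _ => false) c), Nat.zero_le _, ?_⟩
    have h2 : ∀ O : Oracle, accProb O c = accProb (fun _ => false) c := by
      intro O
      unfold accProb
      rw [h1]
      rfl
    have h3 : (fun y : Fin N → Bool => ii (1 / (2 * k)) (accProb (mix (AO y) B) c
        - (DTree.leaf (accProb (fun _ => false) c) : DTree N).eval y)) = fun _ => 0 := by
      funext y
      rw [h2]
      show ii _ (accProb (fun _ => false) c - accProb (fun _ => false) c) = 0
      rw [sub_self]
      unfold ii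
      rw [if_neg]
      rw [abs_zero, not_lt]
      positivity
    rw [h3]
    unfold EE
    simp
  · obtain ⟨Al, Ac, cc, X, h1, h2⟩ := bridge B N c.1.length e AO c.2 K he hAO hAO0 hc hP
    obtain ⟨T, h3, h4⟩ := rel_final h1 Ac (2 * k) (h + 2) (by omega) (by omega) h0
    refine ⟨T, ?_, ?_⟩
    · have h5 : (T.depth : ℝ) ≤ ((2 ^ 23 * (1 + 208 * (2 * k) * (h + 2) * L ^ 3) ^ K * L ^ 9
          * (2 * k * (h + 2)) ^ 6 : ℕ) : ℝ) := by
        refine h3.trans ?_
        push_cast
        have : (c.2.length : ℝ) ≤ L := by exact_mod_cast hL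
        gcongr
        norm_num
      exact (by exact_mod_cast h5 : T.depth ≤ _).trans hD
    · refine le_trans (le_of_eq ?_) (h4.trans ?_)
      · congr 1
        funext y
        rw [h2 y]
        push_cast
        rfl
      · refine le_of_eq ?_
        rw [pow_add]
        ring

theorem orcP (B : Oracle) (c : List Unit × List Gate) (K k q h L D : ℕ) (hk : 1 ≤ k)
    (hP : FewEntangled B c.1.length c.2 K) (hL : c.2.length ≤ L)
    (hq : ∀ q' k', Sum.inr (true, q', k') ∈ c.2 → q'.length ≤ q)
    (hD : 2 ^ 23 * (1 + 208 * (2 * k) * (h + 2) * L ^ 3) ^ K * L ^ 9 * (2 * k * (h + 2)) ^ 6 ≤ D) :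
    ∃ (Kf : ℕ → Oracle → Finset (List Bool)) (es : Oracle → ℕ),
      (∀ A, Kf 0 A = ∅) ∧
      (∀ j A A', (∀ z ∈ Kf j A, A' z = A z) → Kf (j + 1) A' = Kf (j + 1) A) ∧
      (∀ j A, Kf j A ⊆ Kf (j + 1) A) ∧ (∀ j A, Kf j A ⊆ Ev q) ∧
      (∀ A, (Kf D A).card ≤ D) ∧
      (∀ A A', (∀ z ∈ Kf D A, A' z = A z) → es A' = es A) ∧ (∀ A, es A ≤ 2 * k) ∧
      randomOracle.real {A : Oracle | ¬ |accProb (mix A B) c - es A / (2 * k)| ≤ 1 / k} ≤
        (1 / 2) ^ h := by
  classical
  set N := (Ev q).card with hN
  set e : Fin N → List Bool := fun i => ((Ev q).equivFin.symm i).1 with he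
  have hinj : Function.Injective e := by
    intro i j hij
    exact (Ev q).equivFin.symm.injective (Subtype.ext hij)
  have heS : ∀ i, e i ∈ Ev q := fun i => ((Ev q).equivFin.symm i).2
  have heven : ∀ i, (e i).length % 2 = 0 := fun i => (mem_Ev.1 (heS i)).2
  set AO : (Fin N → Bool) → Oracle := fun y z =>
    if h : z ∈ Ev q then y ((Ev q).equivFin ⟨z, h⟩) else false with hAO
  have hAOe : ∀ y i, AO y (e i) = y i := by
    intro y i
    simp only [hAO, dif_pos (heS i)]
    congr 1
    exact (Ev q).equivFin.apply_symm_apply i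
  have hAO0 : ∀ y z, (∀ i, e i ≠ z) → AO y z = false := by
    intro y z hz
    by_cases h : z ∈ Ev q
    · exact absurd (by simp only [he, Equiv.symm_apply_apply]) (hz ((Ev q).equivFin ⟨z, h⟩))
    · simp only [hAO, dif_neg h]
  have hsurj : ∀ z ∈ Ev q, ∃ i, e i = z := fun z hz =>
    ⟨(Ev q).equivFin ⟨z, hz⟩, by simp only [he, Equiv.symm_apply_apply]⟩
  have hOA : ∀ A : Oracle, ∀ z ∈ Ev q, AO (fun i => A (e i)) z = A z := by
    intro A z hz
    simp only [hAO, dif_pos hz, he, Equiv.symm_apply_apply]
  obtain ⟨T, hT1, hT2⟩ := tree_of B c K k h L D hk hP hL hD e AO hinj hAOe hAO0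
    (fun q' k' hm hl z hz => hsurj z (mem_Ev.2 ⟨by rw [hz]; exact hq q' k' hm, by rw [hz]; exact hl⟩))
  set es : (Fin N → Bool) → ℕ := fun y => ⌊2 * (k : ℝ) * max 0 (min (T.eval y) 1)⌋₊ with hes
  have hkR : (1 : ℝ) ≤ k := by exact_mod_cast hk
  have hacc : ∀ A : Oracle, accProb (mix A B) c = accProb (mix (AO fun i => A (e i)) B) c := by
    intro A
    unfold accProb
    rw [circAct_local (A' := mix (AO fun i => A (e i)) B) c.2 (fun q' k' hk' z hz => by
      by_cases h1 : z.length % 2 = 0
      · rw [mix_even h1, mix_even h1]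
        exact (hOA A z (mem_Ev.2 ⟨by rw [hz]; exact hq q' k' hk', h1⟩)).symm
      · rw [mix_odd h1, mix_odd h1])]
  set P : (Fin N → Bool) → Prop := fun y =>
    ¬ |accProb (mix (AO y) B) c - es y / (2 * k)| ≤ 1 / k with hPd
  have hW : {A : Oracle | ¬ |accProb (mix A B) c - es (fun i => A (e i)) / (2 * k)| ≤ 1 / k} =
      {A : List Bool → Bool | P (fun i => A (e i))} := by
    ext A
    simp only [Set.mem_ofPred_eq, hPd]
    rw [hacc A]
  obtain ⟨hm, hp⟩ := Pool.Agent.H54.RQ.c1 N e hinj P (fun _ => Classical.propDecidable _)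
  have hagree : ∀ j (A A' : Oracle),
      (∀ z ∈ (Kt T j (fun i => A (e i))).image e, A' z = A z) →
      ∀ i ∈ Kt T j (fun i => A (e i)), A' (e i) = A (e i) :=
    fun j A A' h1 i hi => h1 (e i) (Finset.mem_image_of_mem e hi)
  refine ⟨fun j A => (Kt T j (fun i => A (e i))).image e, fun A => es (fun i => A (e i)),
    ?_, ?_, ?_, ?_, ?_, ?_, ?_, ?_⟩
  · intro A
    simp [Kt_zero]
  · intro j A A' h1
    have h2 := Kt_congr T j (fun i => A (e i)) (fun i => A' (e i)) (hagree j A A' h1)
    simp only [h2]
  · intro j A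
    exact Finset.image_subset_image (Kt_sub T j _)
  · intro j A z hz
    obtain ⟨i, -, rfl⟩ := Finset.mem_image.1 hz
    exact heS i
  · intro A
    exact Finset.card_image_le.trans (Kt_card T D _)
  · intro A A' h1
    simp only [hes]
    rw [eval_congr T D (fun i => A (e i)) (fun i => A' (e i)) hT1 (hagree D A A' h1)]
  · intro A
    simp only [hes]
    refine Nat.floor_le_of_le ?_
    push_cast
    have : max 0 (min (T.eval fun i => A (e i)) 1) ≤ 1 := max_le zero_le_one (min_le_right _ _)
    exact mul_le_of_le_one_right (by positivity) this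
  · rw [hW, hp]
    refine (EE_mono fun y => ?_).trans hT2
    by_cases h1 : P y
    · rw [if_pos h1]
      unfold ii
      rw [if_pos]
      by_contra h2
      rw [not_lt] at h2
      apply h1
      have h3 : 0 ≤ accProb (mix (AO y) B) c := Pool.Agent.TH682.WC.acc_nonneg _ _
      have h4 : accProb (mix (AO y) B) c ≤ 1 := Pool.Agent.TH682.WC.acc_le_one _ _
      set p := accProb (mix (AO y) B) c with hpd
      set v := T.eval y with hv
      have h5 : |p - max 0 (min v 1)| ≤ 1 / (2 * k) := by
        refine le_trans ?_ h2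
        rw [abs_le]
        have a1 := neg_abs_le (p - v)
        have a2 := le_abs_self (p - v)
        rcases le_total v 0 with b | b
        · rw [min_eq_left (by linarith), max_eq_left b]
          constructor <;> linarith [abs_nonneg (p - v)]
        · rcases le_total v 1 with b' | b'
          · rw [min_eq_left b', max_eq_right b]
            exact ⟨a1, a2⟩
          · rw [min_eq_right b', max_eq_right zero_le_one]
            constructor <;> linarith [abs_nonneg (p - v)]
      set w := max 0 (min v 1) with hw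
      have hw0 : 0 ≤ w := le_max_left _ _
      have h6 : 0 ≤ 2 * (k : ℝ) * w := by positivity
      have h7 := Nat.floor_le h6
      have h8 := Nat.lt_floor_add_one (2 * (k : ℝ) * w)
      have h9 : (es y : ℝ) = (⌊2 * (k : ℝ) * w⌋₊ : ℝ) := rfl
      rw [h9]
      set F : ℝ := (⌊2 * (k : ℝ) * w⌋₊ : ℝ) with hF
      have h10 : |w - F / (2 * k)| ≤ 1 / (2 * k) := by
        have e1 : w - F / (2 * k) = (2 * (k : ℝ) * w - F) / (2 * k) := by
          field_simp
        rw [e1, abs_div, abs_of_pos (by positivity : (0 : ℝ) < 2 * k)]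
        gcongr
        rw [abs_le]
        constructor <;> linarith
      have h11 : (1 : ℝ) / k = 1 / (2 * k) + 1 / (2 * k) := by
        field_simp
        norm_num
      rw [h11]
      refine le_trans ?_ (add_le_add h5 h10)
      have : p - F / (2 * k) = (p - w) + (w - F / (2 * k)) := by ring
      rw [this]
      exact abs_add_le _ _
    · rw [if_neg h1]
      unfold ii
      split_ifs <;> norm_num

end Pool.Agent.TH334.WQ
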